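import Pool.Agent.T9h88.IO.Basic

/-!
# Truth of the clauses for numbers and constant strings
-/

set_option autoImplicit false

namespace Pool.Agent.T9h75.IO

open Pool.Agent.TH672 (Fm Str upd num digits varStr LogK)
open Pool.Agent.TH636.BC
open Pool.Agent.T9h6.BC (sz cl)
open Pool.Agent.T9h88.IO
open Pool.Agent.TH197.J1545 (num_snoc num_app digits_zero digits_odd digits_even digits_num)

theorem num_digits (n : ℕ) : num (digits n) = n := by
  induction n using Nat.strong_induction_on with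
  | _ n ih =>
    rcases Nat.eq_zero_or_pos n with rfl | hn
    · rw [digits_zero]; rfl
    · rcases Nat.even_or_odd' (n - 1) with ⟨k, hk | hk⟩
      · have e : n = 2 * k + 1 := by omega
        rw [e, digits_odd, num_snoc, ih k (by omega)]
        simp
      · have e : n = 2 * k + 2 := by omega
        rw [e, digits_even, num_snoc, ih k (by omega)]
        simp

theorem app_nil (w : ℕ) : app w [] = w := by
  simp [app, num_digits]

theorem app_app (w : ℕ) (s t : List Bool) : app (app w s) t = app w (s ++ t) := by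
  simp [app, digits_num]

theorem app_digits (w : ℕ) (s : List Bool) (z : ℕ) :
    app (app w s) (digits z) = app w (s ++ digits z) := app_app ..

theorem app_zero (s : List Bool) : app 0 s = num s := by
  simp [app, digits_zero]

theorem app_false (w : ℕ) : app w [false] = 2 * w + 1 := by
  simp [app, num_snoc, num_digits]

theorem app_true (w : ℕ) : app w [true] = 2 * w + 2 := by
  simp [app, num_snoc, num_digits]

theorem rep_zero : rep 0 = [] := rfl

theorem rep_succ (n : ℕ) : rep (n + 1) = rep n ++ bs := by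
  unfold rep
  rw [List.replicate_succ', List.flatten_append]
  simp

variable (P : Fml) (σ : List Bool) (κ : ℕ)

theorem tr_app (τ : List Bool) (v : ℕ → ℕ) (x y : ℕ) :
    (o2 (iApp τ) x y).Tr P σ κ v ↔ v y = app (v x) τ := I_app ..

theorem get_app {prem : List At} {v : ℕ → ℕ} (hv : ∀ p ∈ prem, p.Tr P σ κ v) (τ : List Bool)
    (x y : ℕ) (h : o2 (iApp τ) x y ∈ prem) : v y = app (v x) τ := (tr_app P σ κ τ v x y).1 (hv _ h)

theorem tr_K (k : ℕ) (v : ℕ → ℕ) (x : ℕ) : (o1 (iK k) x).Tr P σ κ v ↔ v x = k := I_K ..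

theorem tr_kCl (c : ℕ) : ∀ q ∈ kCl c, q.Tr P σ κ := by
  intro q hq v hv
  unfold kCl at hq
  rcases List.mem_cons.1 hq with rfl | hq
  · have h := hv (.zero 0) (by simp)
    exact (tr_K P σ κ 0 v 0).2 h
  · obtain ⟨n, -, rfl⟩ := List.mem_map.1 hq
    have h1 := (tr_K P σ κ n v 0).1 (hv (o1 (iK n) 0) (by simp))
    have h2 : v 1 = v 0 + 1 := hv (.succ 0 1) (by simp)
    exact (tr_K P σ κ (n + 1) v 1).2 (by rw [h2, h1])

theorem tr_appCl (τ : List Bool) : ∀ q ∈ appCl τ, q.Tr P σ κ := by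
  intro q hq v hv
  unfold appCl at hq
  rcases List.mem_cons.1 hq with rfl | hq
  · exact (tr_app P σ κ [] v 0 0).2 (app_nil _).symm
  · obtain ⟨n, -, rfl⟩ := List.mem_map.1 hq
    generalize τ.take n = ρ at hv ⊢
    generalize τ.getD n false = b at hv ⊢
    have h1 := (tr_app P σ κ ρ v 0 1).1 (hv (o2 (iApp ρ) 0 1) (by simp [appStep]))
    refine (tr_app P σ κ (ρ ++ [b]) v 0 2).2 ?_
    rw [← app_app, ← h1]
    cases b with
    | false =>
      have h2 : v 2 = 2 * v 1 + 1 := hv (o2 iDb0 1 2) (by simp [appStep])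
      rw [h2, app_false]
    | true =>
      have h2 : v 2 = 2 * v 1 + 2 := hv (o2 iDb1 1 2) (by simp [appStep])
      rw [h2, app_true]

theorem tr_clApp : ∀ q ∈ clApp P, q.Tr P σ κ := by
  intro q hq
  unfold clApp at hq
  obtain ⟨τ, -, h⟩ := List.mem_flatMap.1 hq
  exact tr_appCl P σ κ τ q h

theorem tr_clTh : ∀ q ∈ clTh, q.Tr P σ κ := by
  intro q hq v hv
  unfold clTh at hq
  rw [List.mem_singleton] at hq
  subst hq
  have h1 : ∀ j, fT P (v 1) ≤ xs j → NoRef (v 0) (ys j) → NoRef (fT P (v 1)) (xs j) :=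
    hv (o2 iTh 0 1) (by simp)
  have h2 : v 2 = fT P (v 1) := hv (o2 iD2 1 2) (by simp)
  obtain ⟨j, h3, h4⟩ : ∃ j, v 3 = xs j ∧ v 4 = ys j := hv (o2 iSG 3 4) (by simp)
  have h5 : v 2 ≤ v 3 := hv (o2 iLe 2 3) (by simp)
  have h6 : NoRef (v 0) (v 4) := hv (o2 iC 0 4) (by simp)
  show NoRef (v 2) (v 3)
  rw [h2, h3]
  exact h1 j (by rw [← h2, ← h3]; exact h5) (by rw [← h4]; exact h6)

theorem tr_clsD : ∀ q ∈ clsD σ, q.Tr P σ κ := by
  intro q hq
  unfold clsD at hq
  rcases List.mem_cons.1 hq with rfl | hq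
  · intro v hv
    have h0 : v 0 = 0 := hv (.zero 0) (by simp)
    have h1 := get_app P σ κ hv hd 0 1 (by simp)
    have h2 : v 4 = app (v 1) (rep (v 3)) := hv (o3 iRep 3 1 4) (by simp)
    have h3 := get_app P σ κ hv (tlx 28 ++ hd) 4 5 (by simp only [List.mem_cons, true_or, or_true])
    have h4 : v 6 = app (v 5) (rep (v 2)) := hv (o3 iRep 2 5 6) (by simp)
    have h5 := get_app P σ κ hv (tlx 27 ++ σ) 6 7 (by simp only [List.mem_cons, true_or, or_true])
    show v 7 = fZ σ (v 2) (v 3)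
    rw [h5, h4, h3, h2, h1, h0, app_app, app_app, app_app, app_app, app_zero, fZ]
    simp only [List.append_assoc]
  · rcases List.mem_append.1 hq with h | h
    · exact tr_appCl P σ κ _ q h
    · exact tr_appCl P σ κ _ q h

theorem tr_clNum : ∀ q ∈ clNum P κ, q.Tr P σ κ := by
  intro q hq
  unfold clNum at hq
  simp only [List.mem_cons, List.not_mem_nil, or_false] at hq
  rcases hq with rfl | rfl | rfl | rfl | rfl | rfl | rfl | rfl | rfl | rfl | rfl | rfl | rfl |
    rfl | rfl | rfl | rfl | rfl | rfl | rfl | rfl | rfl | rfl | rfl | rfl | rfl | rfl | rfl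
  · intro v hv
    have h : v 1 = 0 := hv (.zero 1) (by simp)
    show v 0 = v 0 + v 1
    omega
  · intro v hv
    have h1 : v 2 = v 1 + 1 := hv (.succ 1 2) (by simp)
    have h2 : v 3 = v 0 + v 1 := hv (.add 0 1 3) (by simp)
    have h3 : v 4 = v 3 + 1 := hv (.succ 3 4) (by simp)
    show v 4 = v 0 + v 2
    omega
  · intro v hv
    have h : v 1 = 0 := hv (.zero 1) (by simp)
    show v 1 = v 0 * v 1
    rw [h, mul_zero]
  · intro v hv
    have h1 : v 2 = v 1 + 1 := hv (.succ 1 2) (by simp)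
    have h2 : v 3 = v 0 * v 1 := hv (.mul 0 1 3) (by simp)
    have h3 : v 4 = v 3 + v 0 := hv (.add 3 0 4) (by simp)
    show v 4 = v 0 * v 2
    rw [h3, h2, h1]; ring
  · intro v hv
    have h1 : v 1 = v 0 + v 0 := hv (.add 0 0 1) (by simp)
    have h2 : v 2 = v 1 + 1 := hv (.succ 1 2) (by simp)
    show v 2 = 2 * v 0 + 1
    omega
  · intro v hv
    have h1 : v 1 = v 0 + v 0 := hv (.add 0 0 1) (by simp)
    have h2 : v 2 = v 1 + 1 := hv (.succ 1 2) (by simp)
    have h3 : v 3 = v 2 + 1 := hv (.succ 2 3) (by simp)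
    show v 3 = 2 * v 0 + 2
    omega
  · intro v hv
    have h : v 0 = 0 := hv (.zero 0) (by simp)
    show v 1 = app (v 1) (rep (v 0))
    rw [h, rep_zero, app_nil]
  · intro v hv
    have h1 : v 2 = app (v 1) (rep (v 0)) := hv (o3 iRep 0 1 2) (by simp)
    have h2 := get_app P σ κ hv bs 2 3 (by simp)
    have h3 : v 4 = v 0 + 1 := hv (.succ 0 4) (by simp)
    show v 3 = app (v 1) (rep (v 4))
    rw [h3, rep_succ, ← app_app, ← h1, h2]
  · intro v hv
    have h : v 1 = 0 := hv (.zero 1) (by simp)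
    show v 0 = app (v 0) (digits (v 1))
    rw [h, digits_zero, app_nil]
  · intro v hv
    have h1 : v 2 = app (v 0) (digits (v 1)) := hv (o3 iCat 0 1 2) (by simp)
    have h2 : v 3 = 2 * v 1 + 1 := hv (o2 iDb0 1 3) (by simp)
    have h3 : v 4 = 2 * v 2 + 1 := hv (o2 iDb0 2 4) (by simp)
    show v 4 = app (v 0) (digits (v 3))
    rw [h2, digits_odd, ← app_app, ← h1, app_false, h3]
  · intro v hv
    have h1 : v 2 = app (v 0) (digits (v 1)) := hv (o3 iCat 0 1 2) (by simp)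
    have h2 : v 3 = 2 * v 1 + 2 := hv (o2 iDb1 1 3) (by simp)
    have h3 : v 4 = 2 * v 2 + 2 := hv (o2 iDb1 2 4) (by simp)
    show v 4 = app (v 0) (digits (v 3))
    rw [h2, digits_even, ← app_app, ← h1, app_true, h3]
  · intro v hv
    have h0 : v 0 = 0 := hv (.zero 0) (by simp)
    have h1 := get_app P σ κ hv hd 0 1 (by simp)
    have h2 : v 3 = app (v 1) (rep (v 2)) := hv (o3 iRep 2 1 3) (by simp)
    have h3 := get_app P σ κ hv (tlx 29) 3 4 (by simp only [List.mem_cons, true_or, or_true])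
    have h4 : v 5 = app (v 4) (digits (v 2)) := hv (o3 iCat 4 2 5) (by simp)
    show v 5 = fA (v 2)
    rw [h4, h3, h2, h1, h0, app_app, app_app, app_app, app_zero, fA]
    simp only [List.append_assoc]
  · intro v hv
    have h0 : v 0 = 0 := hv (.zero 0) (by simp)
    have h1 := get_app P σ κ hv s1 0 1 (by simp)
    have h2 : v 3 = fA (v 2) := hv (o2 iAf 2 3) (by simp)
    have h3 : v 4 = app (v 1) (rep (v 3)) := hv (o3 iRep 3 1 4) (by simp)
    have h4 := get_app P σ κ hv (s2 P) 4 5 (by simp only [List.mem_cons, true_or, or_true])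
    have h5 : v 6 = app (v 5) (digits (v 3)) := hv (o3 iCat 5 3 6) (by simp)
    show v 6 = fT P (v 2)
    rw [h5, h4, h3, h1, h0, h2, app_app, app_app, app_app, app_zero, fT]
    simp only [List.append_assoc]
  · intro v hv
    have h0 : v 0 = 0 := hv (.zero 0) (by simp)
    have h1 : v 1 = v 0 + 1 := hv (.succ 0 1) (by simp)
    show v 1 = 2 ^ v 0
    rw [h1, h0]; rfl
  · intro v hv
    have h1 : v 1 = 2 ^ v 0 := hv (o2 iE 0 1) (by simp)
    have h2 : v 2 = v 0 + 1 := hv (.succ 0 2) (by simp)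
    have h3 : v 3 = v 1 + v 1 := hv (.add 1 1 3) (by simp)
    show v 3 = 2 ^ v 2
    rw [h3, h2, h1, pow_succ]; ring
  · intro v hv
    have h0 : v 0 = 0 := hv (.zero 0) (by simp)
    show v 1 = tw (v 0) (v 1)
    rw [h0]; rfl
  · intro v hv
    have h1 : v 2 = tw (v 0) (v 1) := hv (o3 iIt 0 1 2) (by simp)
    have h2 : v 3 = 2 ^ v 2 := hv (o2 iE 2 3) (by simp)
    have h3 : v 4 = v 0 + 1 := hv (.succ 0 4) (by simp)
    show v 3 = tw (v 4) (v 1)
    rw [h3, h2, h1, tw, tw, Function.iterate_succ_apply']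
  · intro v hv
    have h1 : v 0 = v 4 + 1 := hv (.succ 4 0) (by simp)
    have h2 : v 1 = v 0 * v 0 := hv (.mul 0 0 1) (by simp)
    have h3 : v 2 = tw (v 0) (v 1) := hv (o3 iIt 0 1 2) (by simp)
    have h4 : v 3 = tw (v 0) (v 0) := hv (o3 iIt 0 0 3) (by simp)
    show ∃ j, v 0 = j + 1 ∧ v 2 = xs j ∧ v 3 = ys j
    exact ⟨v 4, h1, by rw [h3, h2, h1]; rfl, by rw [h4, h1]; rfl⟩
  · intro v hv
    obtain ⟨j, -, h2, h3⟩ : ∃ j, v 0 = j + 1 ∧ v 1 = xs j ∧ v 2 = ys j :=
      hv (o3 iSc 0 1 2) (by simp)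
    show ∃ j, v 1 = xs j ∧ v 2 = ys j
    exact ⟨j, h2, h3⟩
  · intro v hv
    obtain ⟨j, h1, h2, -⟩ : ∃ j, v 0 = j + 1 ∧ v 1 = xs j ∧ v 2 = ys j :=
      hv (o3 iSc 0 1 2) (by simp)
    have h4 : v 3 = v 0 + 1 := hv (.succ 0 3) (by simp)
    obtain ⟨i, h5, h6, -⟩ : ∃ j, v 3 = j + 1 ∧ v 4 = xs j ∧ v 5 = ys j :=
      hv (o3 iSc 3 4 5) (by simp)
    show ∃ j, v 1 = xs j ∧ v 4 = xs (j + 1)
    have e : i = j + 1 := by omega
    exact ⟨j, h2, by rw [h6, e]⟩
  · intro v hv
    have h1 : v 1 = v 0 + 1 := hv (.succ 0 1) (by simp)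
    show v 0 < v 1
    omega
  · intro v hv
    have h1 : v 0 < v 1 := hv (o2 iLt 0 1) (by simp)
    have h2 : v 2 = v 1 + 1 := hv (.succ 1 2) (by simp)
    show v 0 < v 2
    omega
  · intro v hv
    show v 0 ≤ v 0
    exact le_rfl
  · intro v hv
    have h1 : v 0 ≤ v 1 := hv (o2 iLe 0 1) (by simp)
    have h2 : v 2 = v 1 + 1 := hv (.succ 1 2) (by simp)
    show v 0 ≤ v 2
    omega
  · intro v hv
    have h1 : NoRef (v 0) (v 1) := hv (o2 iC 0 1) (by simp)
    show NoRef (v 0) (v 1) ∨ v 1 < v 0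
    exact .inl h1
  · intro v hv
    have h1 : v 1 < v 0 := hv (o2 iLt 1 0) (by simp)
    show NoRef (v 0) (v 1) ∨ v 1 < v 0
    exact .inr h1
  · intro v hv
    have h1 : v 1 = v 0 * v 0 := hv (.mul 0 0 1) (by simp)
    have h2 : v 2 = v 1 * v 1 := hv (.mul 1 1 2) (by simp)
    have h3 := (tr_K P σ κ κ v 3).1 (hv (o1 (iK κ) 3) (by simp))
    have h4 : v 3 ≤ v 0 := hv (o2 iLe 3 0) (by simp)
    show κ * v 0 ^ 2 ≤ v 2
    rw [h2, h1, ← h3, pow_two]
    refine Nat.mul_le_mul_right _ (h4.trans ?_)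
    exact Nat.le_mul_self _
  · intro v hv
    have h1 : v 0 ≤ v 1 := hv (o2 iLe 0 1) (by simp)
    have h2 : κ * v 1 ^ 2 ≤ v 2 := hv (o2 iLk 1 2) (by simp)
    show κ * v 0 ^ 2 ≤ v 2
    exact (Nat.mul_le_mul_left _ (Nat.pow_le_pow_left h1 2)).trans h2

/-- (V4) -/
theorem vNum : VNum := by
  intro P σ κ q hq
  simp only [List.mem_append, or_assoc] at hq
  rcases hq with h | h | h | h | h
  · exact tr_clNum P σ κ q h
  · exact tr_kCl P σ κ κ q h
  · exact tr_clApp P σ κ q h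
  · exact tr_clTh P σ κ q h
  · exact tr_clsD P σ κ q h

end Pool.Agent.T9h75.IO
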